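import Mathlib

/-!
# Locally triangular transformations of profinite groups have finite orbits
-/

set_option autoImplicit false
set_option linter.unusedSectionVars false

open Set Metric Filter Topology

namespace Pool.Agent.U385.HF

/-- Near `u` the first `i` coordinates of `f v` depend only on the first `i` coordinates of `v`, for
all `i`. -/
def TriAt {n : ℕ} (f : EuclideanSpace ℝ (Fin n) → EuclideanSpace ℝ (Fin n))
    (u : EuclideanSpace ℝ (Fin n)) : Prop :=
  ∃ W ∈ 𝓝 u, ∀ v ∈ W, ∀ w ∈ W, ∀ i : Fin n, (∀ l ≤ i, v l = w l) → f v i = f w i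

/-- There is a topological chart `ψ` at `x` in which all powers of `g` are triangular near all points
which they do not move out of the chart. -/
def FlagAt (n : ℕ) {X G : Type} [TopologicalSpace X] [Group G] [MulAction G X] (g : G) (x : X) :
    Prop :=
  ∃ ψ : OpenPartialHomeomorph X (EuclideanSpace ℝ (Fin n)), x ∈ ψ.source ∧
    ∀ (k : ℤ), ∀ y ∈ ψ.source, g ^ k • y ∈ ψ.source →
      TriAt (fun v => ψ (g ^ k • ψ.symm v)) (ψ y)

section cube

variable {n : ℕ}

/-- the cube with centre `a` and side `2 R` -/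
def Q (a : EuclideanSpace ℝ (Fin n)) (R : ℝ) : Set (EuclideanSpace ℝ (Fin n)) :=
  {v | ∀ i, |v i - a i| ≤ R}

lemma Q_mono {a : EuclideanSpace ℝ (Fin n)} {R R' : ℝ} (h : R ≤ R') : Q a R ⊆ Q a R' :=
  fun _ hv i => (hv i).trans h

lemma Q_seg {a v w : EuclideanSpace ℝ (Fin n)} {R t : ℝ} (hv : v ∈ Q a R) (hw : w ∈ Q a R)
    (h0 : 0 ≤ t) (h1 : t ≤ 1) : v + t • (w - v) ∈ Q a R := by
  intro i
  have h2 := abs_le.1 (hv i)
  have h3 := abs_le.1 (hw i)
  have h4 : (v + t • (w - v)) i = v i + t * (w i - v i) := by simp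
  rw [h4, abs_le]
  constructor
  · nlinarith
  · nlinarith

lemma Q_compact (a : EuclideanSpace ℝ (Fin n)) (R : ℝ) : IsCompact (Q a R) := by
  have h1 : Q a R = (EuclideanSpace.equiv (Fin n) ℝ).toHomeomorph ⁻¹'
      (Set.pi univ (fun i => Icc (a i - R) (a i + R))) := by
    ext v
    constructor
    · intro h i _
      have h3 := abs_le.1 (h i)
      exact ⟨by show a i - R ≤ v i; linarith, by show v i ≤ a i + R; linarith⟩
    · intro h i
      have h3 : a i - R ≤ v i := (h i (Set.mem_univ i)).1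
      have h4 : v i ≤ a i + R := (h i (Set.mem_univ i)).2
      rw [abs_le]
      exact ⟨by linarith, by linarith⟩
  rw [h1, Homeomorph.isCompact_preimage]
  exact isCompact_univ_pi fun i => isCompact_Icc

lemma exists_Q {U : Set (EuclideanSpace ℝ (Fin n))} (hU : IsOpen U)
    {a : EuclideanSpace ℝ (Fin n)} (ha : a ∈ U) : ∃ R : ℝ, 0 < R ∧ Q a R ⊆ U := by
  have h1 : IsOpen ((EuclideanSpace.equiv (Fin n) ℝ).toHomeomorph.symm ⁻¹' U) :=
    hU.preimage (Homeomorph.continuous _)
  obtain ⟨ε, hε, hb⟩ := Metric.isOpen_iff.1 h1 ((EuclideanSpace.equiv (Fin n) ℝ).toHomeomorph a)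
    (by simpa using ha)
  refine ⟨ε / 2, half_pos hε, fun v hv => ?_⟩
  have h2 : (EuclideanSpace.equiv (Fin n) ℝ).toHomeomorph v ∈
      ball ((EuclideanSpace.equiv (Fin n) ℝ).toHomeomorph a) ε := by
    rw [mem_ball]
    refine lt_of_le_of_lt ((dist_pi_le_iff (half_pos hε).le).2 fun i => ?_) (half_lt_self hε)
    rw [Real.dist_eq]
    exact hv i
  have h3 := hb h2
  simpa using h3

lemma coord_le (u v : EuclideanSpace ℝ (Fin n)) (i : Fin n) : |u i - v i| ≤ dist u v := by
  rw [dist_eq_norm]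
  have h1 := PiLp.norm_apply_le (u - v) i
  simpa using h1

end cube

section open_sub

variable {n : ℕ} {X S : Type} [TopologicalSpace X] [Group S] [TopologicalSpace S]
  [IsTopologicalGroup S] [CompactSpace S] [T2Space S] [TotallyDisconnectedSpace S]
  [MulAction S X] [ContinuousSMul S X]

theorem exists_open (ψ : OpenPartialHomeomorph X (EuclideanSpace ℝ (Fin n)))
    {K : Set (EuclideanSpace ℝ (Fin n))} (hK : IsCompact K) (hKt : K ⊆ ψ.target) {ε : ℝ}
    (hε : 0 < ε) :
    ∃ H0 : Subgroup S, IsOpen (H0 : Set S) ∧ ∀ h ∈ H0, ∀ v ∈ K,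
      h • ψ.symm v ∈ ψ.source ∧ dist (ψ (h • ψ.symm v)) v < ε := by
  have key : ∀ᶠ h : S in 𝓝 1, ∀ v ∈ K,
      h • ψ.symm v ∈ ψ.source ∧ dist (ψ (h • ψ.symm v)) v < ε := by
    apply hK.eventually_forall_of_forall_eventually
    intro v hv
    have hvt := hKt hv
    have h1 : ContinuousAt (fun z : S × EuclideanSpace ℝ (Fin n) => z.1 • ψ.symm z.2) (1, v) := by
      refine ContinuousAt.smul continuousAt_fst ?_
      exact ContinuousAt.comp (f := fun z : S × EuclideanSpace ℝ (Fin n) => z.2) (x := ((1 : S), v))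
        (ψ.continuousAt_symm hvt) continuousAt_snd
    have hs1 : (1 : S) • ψ.symm v ∈ ψ.source := by rw [one_smul]; exact ψ.map_target hvt
    have h2 : ContinuousAt ψ ((1 : S) • ψ.symm v) := ψ.continuousAt hs1
    have h3 : ContinuousAt (fun z : S × EuclideanSpace ℝ (Fin n) => ψ (z.1 • ψ.symm z.2)) (1, v) :=
      ContinuousAt.comp (f := fun z : S × EuclideanSpace ℝ (Fin n) => z.1 • ψ.symm z.2)
        (x := ((1 : S), v)) h2 h1
    have h5 : Tendsto (fun z : S × EuclideanSpace ℝ (Fin n) => dist (ψ (z.1 • ψ.symm z.2)) z.2)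
        (𝓝 (1, v)) (𝓝 0) := by
      have h6 : Tendsto (fun z : S × EuclideanSpace ℝ (Fin n) => dist (ψ (z.1 • ψ.symm z.2)) z.2)
        (𝓝 (1, v)) (𝓝 (dist (ψ ((1 : S) • ψ.symm v)) v)) := h3.dist continuousAt_snd
      have h7 : dist (ψ ((1 : S) • ψ.symm v)) v = 0 := by
        rw [one_smul, ψ.right_inv hvt, dist_self]
      rwa [h7] at h6
    have h8 : ∀ᶠ z : S × EuclideanSpace ℝ (Fin n) in 𝓝 (1, v), z.1 • ψ.symm z.2 ∈ ψ.source :=
      h1.eventually_mem (ψ.open_source.mem_nhds hs1)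
    filter_upwards [h8, h5.eventually (gt_mem_nhds hε)] with z hz1 hz2
    exact ⟨hz1, hz2⟩
  obtain ⟨V, hV, hVo, hV1⟩ := eventually_nhds_iff.1 key
  obtain ⟨N, hN⟩ := ProfiniteGrp.exist_openNormalSubgroup_sub_open_nhds_of_one hVo hV1
  exact ⟨N.toSubgroup, N.isOpen, fun h hh v hv => hV h (hN hh) v hv⟩

omit [T2Space S] [TotallyDisconnectedSpace S] in
theorem exists_pow (H0 : Subgroup S) (h : IsOpen (H0 : Set S)) (s : S) :
    ∃ m : ℕ, 0 < m ∧ s ^ m ∈ H0 := by
  have : Finite (S ⧸ H0) := Subgroup.quotient_finite_of_isOpen H0 h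
  obtain ⟨m, h1, -, h2⟩ := Subgroup.exists_pow_mem_of_index_ne_zero
    (H := H0) (Subgroup.index_ne_zero_of_finite) s
  exact ⟨m, h1, h2⟩

end open_sub

section main

variable {n : ℕ} {X S : Type} [TopologicalSpace X] [Group S] [TopologicalSpace S]
  [MulAction S X] [ContinuousSMul S X]
  {ψ : OpenPartialHomeomorph X (EuclideanSpace ℝ (Fin n))} {a : EuclideanSpace ℝ (Fin n)} {R : ℝ}
  {h : S}

/-- the powers of `h` in the chart -/
def pw (ψ : OpenPartialHomeomorph X (EuclideanSpace ℝ (Fin n))) (h : S) (k : ℤ)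
    (v : EuclideanSpace ℝ (Fin n)) : EuclideanSpace ℝ (Fin n) := ψ (h ^ k • ψ.symm v)

/-- the assumptions of the induction -/
structure Setup (ψ : OpenPartialHomeomorph X (EuclideanSpace ℝ (Fin n)))
    (a : EuclideanSpace ℝ (Fin n)) (R : ℝ) (h : S) : Prop where
  pos : 0 < R
  sub : Q a R ⊆ ψ.target
  mem : ∀ k : ℤ, ∀ v ∈ Q a R, h ^ k • ψ.symm v ∈ ψ.source
  small : ∀ k : ℤ, ∀ v ∈ Q a R, dist (pw ψ h k v) v < R / 4
  recu : ∀ k : ℤ, ∀ v ∈ Q a R, ∀ ε : ℝ, 0 < ε → ∃ m : ℕ, 0 < m ∧ dist (pw ψ h (k * m) v) v < ε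
  tri : ∀ k : ℤ, ∀ v ∈ Q a R, TriAt (pw ψ h k) v

lemma Setup.comp (H : Setup ψ a R h) (k l : ℤ) {v : EuclideanSpace ℝ (Fin n)} (hv : v ∈ Q a R) :
    pw ψ h (k + l) v = pw ψ h k (pw ψ h l v) := by
  unfold pw
  rw [ψ.left_inv (H.mem l v hv), zpow_add, mul_smul]

lemma Setup.zero (H : Setup ψ a R h) {v : EuclideanSpace ℝ (Fin n)} (hv : v ∈ Q a R) :
    pw ψ h 0 v = v := by
  unfold pw
  rw [zpow_zero, one_smul, ψ.right_inv (H.sub hv)]

lemma Setup.cont (H : Setup ψ a R h) (k : ℤ) : ContinuousOn (pw ψ h k) (Q a R) := by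
  have h1 : ContinuousOn (fun v => h ^ k • ψ.symm v) (Q a R) :=
    (ψ.continuousOn_symm.mono H.sub).const_smul _
  exact ψ.continuousOn.comp h1 fun v hv => H.mem k v hv

lemma Setup.coord (H : Setup ψ a R h) (k : ℤ) {v : EuclideanSpace ℝ (Fin n)} (hv : v ∈ Q a R)
    (i : Fin n) : |pw ψ h k v i - v i| < R / 4 :=
  lt_of_le_of_lt (coord_le _ _ i) (H.small k v hv)

/-- triangular on the cube -/
lemma Setup.triQ (H : Setup ψ a R h) (k : ℤ) {v w : EuclideanSpace ℝ (Fin n)} (hv : v ∈ Q a R)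
    (hw : w ∈ Q a R) (i : Fin n) (hvw : ∀ l ≤ i, v l = w l) :
    pw ψ h k v i = pw ψ h k w i := by
  let γ : unitInterval → EuclideanSpace ℝ (Fin n) := fun t => v + (t : ℝ) • (w - v)
  have hγc : Continuous γ := by
    show Continuous (fun t : unitInterval => v + (t : ℝ) • (w - v))
    fun_prop
  have hγl : ∀ t, ∀ l ≤ i, γ t l = v l := by
    intro t l hl
    have h1 : γ t l = v l + (t : ℝ) * (w l - v l) := by simp [γ]
    rw [h1, hvw l hl, sub_self, mul_zero, add_zero]
  have hγQ : ∀ t, γ t ∈ Q a R := fun t => Q_seg hv hw t.2.1 t.2.2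
  have h1 : IsLocallyConstant (fun t => pw ψ h k (γ t) i) := by
    rw [IsLocallyConstant.iff_eventually_eq]
    intro t
    obtain ⟨W, hW, hWt⟩ := H.tri k (γ t) (hγQ t)
    filter_upwards [hγc.continuousAt.preimage_mem_nhds hW] with t' ht'
    refine hWt (γ t') ht' (γ t) (mem_of_mem_nhds hW) i fun l hl => ?_
    rw [hγl t' l hl, hγl t l hl]
  have h2 := h1.apply_eq_of_preconnectedSpace 0 1
  have h3 : γ 0 = v := by simp [γ]
  have h4 : γ 1 = w := by simp [γ]
  rw [h3, h4] at h2
  exact h2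

/-- The coordinates are fixed. -/
theorem Setup.fix (H : Setup ψ a R h) : ∀ (N : ℕ) (i : Fin n), i.val = N → ∀ (k : ℤ),
    ∀ v ∈ Q a (R / 2), pw ψ h k v i = v i := by
  have hR := H.pos
  intro N
  induction N using Nat.strong_induction_on with
  | _ N ih =>
    intro i hi k v hv
    by_contra hne
    have hvQ : v ∈ Q a R := Q_mono (by linarith) hv
    have ih' : ∀ l : Fin n, l < i → ∀ k : ℤ, pw ψ h k v l = v l := by
      intro l hl k
      exact ih l.val (by rw [← hi]; exact hl) l rfl k v hv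
    -- the iterates
    obtain ⟨V, hV⟩ : ∃ V : ℕ → EuclideanSpace ℝ (Fin n), V = fun m : ℕ => pw ψ h (k * m) v :=
      ⟨_, rfl⟩
    have hVm : ∀ m, V m = pw ψ h (k * m) v := fun m => by rw [hV]
    have hVQ : ∀ m, V m ∈ Q a (3 * R / 4) := by
      intro m l
      have h1 := abs_lt.1 (H.coord (k * m) hvQ l)
      have h2 := abs_le.1 (hv l)
      rw [hVm, abs_le]
      constructor
      · linarith
      · linarith
    have hVQR : ∀ m, V m ∈ Q a R := fun m => Q_mono (by linarith) (hVQ m)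
    have hV0 : V 0 = v := by
      rw [hVm, Nat.cast_zero, mul_zero, H.zero hvQ]
    have hVs : ∀ m, V (m + 1) = pw ψ h k (V m) := by
      intro m
      rw [hVm, hVm, ← H.comp k (k * m) hvQ]
      congr 1
      push_cast
      ring
    -- the update
    obtain ⟨up, hup⟩ : ∃ up : ℝ → EuclideanSpace ℝ (Fin n),
        up = fun y => v + (y - v i) • EuclideanSpace.single i (1 : ℝ) := ⟨_, rfl⟩
    have hupi : ∀ y, up y i = y := by
      intro y
      rw [hup]
      simp
    have hupl : ∀ y l, l ≠ i → up y l = v l := by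
      intro y l hl
      rw [hup]
      simp [hl]
    have hupc : Continuous up := by
      rw [hup]
      fun_prop
    have hupQ : ∀ y r : ℝ, R / 2 ≤ r → |y - a i| ≤ r → up y ∈ Q a r := by
      intro y r hr hy l
      by_cases hl : l = i
      · rw [hl, hupi]
        exact hy
      · rw [hupl y l hl]
        exact (hv l).trans hr
    obtain ⟨θ, hθ⟩ : ∃ θ : ℝ → ℝ, θ = fun y => pw ψ h k (up y) i := ⟨_, rfl⟩
    have hθy : ∀ y, θ y = pw ψ h k (up y) i := fun y => by rw [hθ]
    have hstep : ∀ m, V (m + 1) i = θ (V m i) := by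
      intro m
      rw [hVs, hθy]
      refine H.triQ k (hVQR m) (hupQ _ R (by linarith) (hVQR m i)) i fun l hl => ?_
      by_cases hli : l = i
      · rw [hli, hupi]
      · rw [hupl _ l hli, hVm]
        exact ih' l (lt_of_le_of_ne hl hli) _
    have hab : a i - 3 * R / 4 ≤ a i + 3 * R / 4 := by linarith
    have hIcc : ∀ y, y ∈ Icc (a i - 3 * R / 4) (a i + 3 * R / 4) → |y - a i| ≤ 3 * R / 4 := by
      intro y hy
      rw [abs_le]
      exact ⟨by linarith [hy.1], by linarith [hy.2]⟩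
    have hθc : ContinuousOn θ (Icc (a i - 3 * R / 4) (a i + 3 * R / 4)) := by
      rw [hθ]
      have h1 : ContinuousOn (fun y => pw ψ h k (up y)) (Icc (a i - 3 * R / 4) (a i + 3 * R / 4)) :=
        (H.cont k).comp hupc.continuousOn fun y hy =>
          hupQ y R (by linarith) ((hIcc y hy).trans (by linarith))
      have h2 : Continuous (fun u : EuclideanSpace ℝ (Fin n) => u i) := by fun_prop
      exact h2.comp_continuousOn h1
    have hθi : InjOn θ (Icc (a i - 3 * R / 4) (a i + 3 * R / 4)) := by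
      intro y hy y' hy' hyy
      have hy1 := hupQ y (3 * R / 4) (by linarith) (hIcc y hy)
      have hy1' := hupQ y' (3 * R / 4) (by linarith) (hIcc y' hy')
      have hy2 : up y ∈ Q a R := Q_mono (by linarith) hy1
      have hy2' : up y' ∈ Q a R := Q_mono (by linarith) hy1'
      have hQ : ∀ u ∈ Q a (3 * R / 4), pw ψ h k u ∈ Q a R := by
        intro u hu l
        have h1 := abs_lt.1 (H.coord k (Q_mono (by linarith) hu) l)
        have h2 := abs_le.1 (hu l)
        rw [abs_le]
        constructor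
        · linarith
        · linarith
      have h1 : ∀ l ≤ i, pw ψ h k (up y) l = pw ψ h k (up y') l := by
        intro l hl
        by_cases hli : l = i
        · rw [hli]
          rw [hθy, hθy] at hyy
          exact hyy
        · refine H.triQ k hy2 hy2' l fun l' hl' => ?_
          have hne : l' ≠ i := fun h => hli (le_antisymm hl (h ▸ hl'))
          rw [hupl y l' hne, hupl y' l' hne]
      have h2 := H.triQ (-k) (hQ _ hy1) (hQ _ hy1') i h1
      rw [← H.comp (-k) k hy2, ← H.comp (-k) k hy2', neg_add_cancel, H.zero hy2, H.zero hy2',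
        hupi, hupi] at h2
      exact h2
    have hmono : StrictMonoOn θ (Icc (a i - 3 * R / 4) (a i + 3 * R / 4)) := by
      rcases hθc.strictMonoOn_of_injOn_Icc' hab hθi with h1 | h1
      · exact h1
      · exfalso
        have hl : a i - 3 * R / 4 ∈ Icc (a i - 3 * R / 4) (a i + 3 * R / 4) := ⟨le_rfl, hab⟩
        have hr : a i + 3 * R / 4 ∈ Icc (a i - 3 * R / 4) (a i + 3 * R / 4) := ⟨hab, le_rfl⟩
        have h2 := h1 hl hr (by linarith)
        have h3 := abs_lt.1 (H.coord k (hupQ _ R (by linarith) ((hIcc _ hl).trans (by linarith))) i)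
        have h4 := abs_lt.1 (H.coord k (hupQ _ R (by linarith) ((hIcc _ hr).trans (by linarith))) i)
        rw [← hθy, hupi] at h3 h4
        linarith
    have hmem : ∀ m, V m i ∈ Icc (a i - 3 * R / 4) (a i + 3 * R / 4) := by
      intro m
      have h1 := abs_le.1 (hVQ m i)
      exact ⟨by linarith, by linarith⟩
    have hV1 : V 1 = pw ψ h k v := by rw [hVs 0, hV0]
    rcases lt_or_gt_of_ne hne with hlt | hgt
    · -- decreasing
      have hdec : ∀ m, V (m + 1) i < V m i := by
        intro m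
        induction m with
        | zero => rw [hV1, hV0]; exact hlt
        | succ m ihm =>
          have e1 := hstep (m + 1)
          have e2 := hstep m
          have e3 := hmono (hmem (m + 1)) (hmem m) ihm
          linarith
      have hle : ∀ m, 0 < m → V m i ≤ V 1 i := by
        intro m hm
        obtain ⟨m, rfl⟩ : ∃ m', m = m' + 1 := ⟨m - 1, by omega⟩
        clear hm
        induction m with
        | zero => exact le_rfl
        | succ m ihm => exact (hdec (m + 1)).le.trans ihm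
      obtain ⟨m, hm, hd⟩ := H.recu k v hvQ (v i - V 1 i) (by rw [hV1]; linarith)
      have h1 := lt_of_le_of_lt (coord_le _ _ i) hd
      rw [← hVm] at h1
      have h2 := hle m hm
      have h3 := (abs_lt.1 h1).1
      linarith
    · have hinc : ∀ m, V m i < V (m + 1) i := by
        intro m
        induction m with
        | zero => rw [hV1, hV0]; exact hgt
        | succ m ihm =>
          have e1 := hstep (m + 1)
          have e2 := hstep m
          have e3 := hmono (hmem m) (hmem (m + 1)) ihm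
          linarith
      have hle : ∀ m, 0 < m → V 1 i ≤ V m i := by
        intro m hm
        obtain ⟨m, rfl⟩ : ∃ m', m = m' + 1 := ⟨m - 1, by omega⟩
        clear hm
        induction m with
        | zero => exact le_rfl
        | succ m ihm => exact ihm.trans (hinc (m + 1)).le
      obtain ⟨m, hm, hd⟩ := H.recu k v hvQ (V 1 i - v i) (by rw [hV1]; linarith)
      have h1 := lt_of_le_of_lt (coord_le _ _ i) hd
      rw [← hVm] at h1
      have h2 := hle m hm
      have h3 := (abs_lt.1 h1).2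
      linarith

end main

section final

variable {n : ℕ} {X S : Type} [TopologicalSpace X] [Group S] [TopologicalSpace S]
  [IsTopologicalGroup S] [CompactSpace S] [T2Space S] [TotallyDisconnectedSpace S]
  [MulAction S X] [ContinuousSMul S X]

/-- **A power is trivial near the point.** -/
theorem trivial_near {s : S} {x : X} (hx : FlagAt n s x) :
    ∃ m : ℕ, 0 < m ∧ ∀ᶠ y in 𝓝 x, s ^ m • y = y := by
  obtain ⟨ψ, hxs, htri⟩ := hx
  obtain ⟨R, hR, hQ⟩ := exists_Q ψ.open_target (ψ.map_source hxs)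
  obtain ⟨H0, hH0o, hH0⟩ := exists_open (S := S) ψ (Q_compact (ψ x) R) hQ (ε := R / 4)
    (by linarith)
  obtain ⟨m, hm, hsm⟩ := exists_pow H0 hH0o s
  have hmemk : ∀ k : ℤ, (s ^ m) ^ k ∈ H0 := fun k => H0.zpow_mem hsm k
  have H : Setup ψ (ψ x) R (s ^ m) := by
    refine ⟨hR, hQ, fun k v hv => (hH0 _ (hmemk k) v hv).1,
      fun k v hv => (hH0 _ (hmemk k) v hv).2, fun k v hv ε hε => ?_, fun k v hv => ?_⟩
    · obtain ⟨H1, hH1o, hH1⟩ := exists_open (S := S) ψ (Q_compact (ψ x) R) hQ (ε := ε) hε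
      obtain ⟨q, hq, hsq⟩ := exists_pow H1 hH1o ((s ^ m) ^ k)
      refine ⟨q, hq, ?_⟩
      have h1 := (hH1 _ hsq v hv).2
      unfold pw
      rwa [zpow_mul, zpow_natCast]
    · have hvt := hQ hv
      have h1 := htri (m * k) (ψ.symm v) (ψ.map_target hvt) (by
        have h2 := (hH0 _ (hmemk k) v hv).1
        rwa [← zpow_natCast, ← zpow_mul] at h2)
      rw [ψ.right_inv hvt, zpow_mul, zpow_natCast] at h1
      exact h1
  refine ⟨m, hm, ?_⟩
  have hb : ψ ⁻¹' ball (ψ x) (R / 2) ∈ 𝓝 x :=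
    (ψ.continuousAt hxs).preimage_mem_nhds (ball_mem_nhds _ (by linarith))
  filter_upwards [hb, ψ.open_source.mem_nhds hxs] with y hy hys
  have hyQ : ψ y ∈ Q (ψ x) (R / 2) := fun i =>
    ((coord_le _ _ i).trans_lt (mem_ball.1 hy)).le
  have h1 : pw ψ (s ^ m) 1 (ψ y) = ψ y := by
    ext i
    exact H.fix i.val i rfl 1 (ψ y) hyQ
  have h2 : s ^ m • y ∈ ψ.source := by
    have h3 := H.mem 1 (ψ y) (Q_mono (by linarith) hyQ)
    rwa [zpow_one, ψ.left_inv hys] at h3
  unfold pw at h1
  rw [zpow_one, ψ.left_inv hys] at h1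
  exact ψ.injOn h2 hys h1

/-- **Finite orbits.** -/
theorem finite_orbit {s : S} {x : X} (hx : FlagAt n s x) : ∃ m : ℕ, 0 < m ∧ s ^ m • x = x := by
  obtain ⟨m, hm, h⟩ := trivial_near hx
  exact ⟨m, hm, h.self_of_nhds⟩

end final

end Pool.Agent.U385.HF
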